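import Mathlib

set_option autoImplicit false

open scoped ENNReal

namespace Pool.Agent.Lib.MP_d94893_lc

/-- The point at distance `a` from the origin on ray `j`; the rays are the non-negative
coordinate half-axes of Euclidean space. -/
noncomputable def pt {m : ℕ} (j : Fin m) (a : ℝ) : EuclideanSpace ℝ (Fin m) :=
  EuclideanSpace.single j a

/-- A trajectory: starts at the origin, stays on the rays, and has unit speed
(the length travelled during `[s, t]` is `t - s`). -/
def IsTrajectory {m : ℕ} (T : ℝ → EuclideanSpace ℝ (Fin m)) : Prop :=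
  T 0 = 0 ∧ (∀ t, 0 ≤ t → ∃ (j : Fin m) (a : ℝ), 0 ≤ a ∧ T t = pt j a) ∧
    HasUnitSpeedOn T (Set.Ici 0)

/-- The times `s ∈ [0, t]` at which the searcher is at the treasure. -/
def passes {m : ℕ} (T : ℝ → EuclideanSpace ℝ (Fin m)) (j : Fin m) (d t : ℝ) : Set ℝ :=
  {s | s ∈ Set.Icc 0 t ∧ T s = pt j d}

open Classical in
/-- Probability that the treasure is still undetected at time `t`: `(1 - p) ^ (number of passes)`,
and `0` once the searcher has reversed direction at the treasure (or passed infinitely often). -/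
noncomputable def survival {m : ℕ} (p : ℝ) (T : ℝ → EuclideanSpace ℝ (Fin m)) (j : Fin m)
    (d t : ℝ) : ℝ≥0∞ :=
  if (passes T j d t).Finite ∧ ∀ s ∈ passes T j d t, ¬ IsLocalExtr (fun u => T u j) s
  then ENNReal.ofReal ((1 - p) ^ (passes T j d t).ncard) else 0

/-- Expected time of first detection, `E X = ∫₀^∞ P(X > t) dt`. -/
noncomputable def expTime {m : ℕ} (p : ℝ) (T : ℝ → EuclideanSpace ℝ (Fin m)) (j : Fin m)
    (d : ℝ) : ℝ≥0∞ :=
  ∫⁻ t in Set.Ici (0 : ℝ), survival p T j d t

/-- The competitive ratio `C_p(T)`. -/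
noncomputable def ratio {m : ℕ} (p : ℝ) (T : ℝ → EuclideanSpace ℝ (Fin m)) : ℝ≥0∞ :=
  ⨆ (j : Fin m) (d : ℝ) (_ : 1 ≤ d), ENNReal.ofReal p * expTime p T j d / ENNReal.ofReal d

/-- Cyclic monotone trajectories: excursion `k = 0, 1, …` goes out on ray `k mod m` to distance
`x k` and back to the origin; on each ray the turning distances strictly increase, and they
tend to infinity. -/
def IsCyclicMonotone {m : ℕ} (T : ℝ → EuclideanSpace ℝ (Fin m)) : Prop :=
  ∃ x : ℕ → ℝ, (∀ k, 0 ≤ x k) ∧ (∀ k, x k < x (k + m)) ∧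
    Filter.Tendsto x Filter.atTop Filter.atTop ∧
    ∀ (k : ℕ) (j : Fin m), (j : ℕ) = k % m → ∀ s ∈ Set.Icc 0 (2 * x k),
      T (2 * ∑ i ∈ Finset.range k, x i + s) = pt j (x k - |s - x k|)

end Pool.Agent.Lib.MP_d94893_lc
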