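import Mathlib
import Pool.Agent.Lib.MP_d94893_lc.Defs

set_option autoImplicit false

open scoped ENNReal
open MeasureTheory Set Filter

namespace Pool.Agent.Lib.MP_d94893_lc

theorem lint_ind (c t : ℝ) (hc : 0 ≤ c) :
    ∫⁻ s in Ici (0 : ℝ), (Iio t).indicator (fun _ => ENNReal.ofReal c) s =
      ENNReal.ofReal (c * t) := by
  rw [lintegral_indicator measurableSet_Iio, setLIntegral_const,
    Measure.restrict_apply measurableSet_Iio, inter_comm, Ici_inter_Iio, Real.volume_Ico,
    sub_zero, ENNReal.ofReal_mul hc]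

theorem sum_ind_le (r s : ℝ) (hr0 : 0 ≤ r) (hr1 : r ≤ 1) (M : ℕ) :
    ∀ (t : ℕ → ℝ) (a : ℝ) (F : ℝ≥0∞), 0 ≤ a → (∀ n, s < t n → ENNReal.ofReal (a * r ^ n) ≤ F) →
      ∑ n ∈ Finset.range M,
        (Iio (t n)).indicator (fun _ => ENNReal.ofReal (a * (1 - r) * r ^ n)) s ≤ F := by
  induction M with
  | zero => intro t a F _ _; simp
  | succ M ih =>
    intro t a F ha h
    by_cases h0 : s < t 0
    · refine le_trans ?_ (h 0 h0)
      calc ∑ n ∈ Finset.range (M + 1),
            (Iio (t n)).indicator (fun _ => ENNReal.ofReal (a * (1 - r) * r ^ n)) s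
          ≤ ∑ n ∈ Finset.range (M + 1), ENNReal.ofReal (a * (1 - r) * r ^ n) :=
            Finset.sum_le_sum (fun n _ => indicator_le_self' (fun _ _ => zero_le) s)
        _ = ENNReal.ofReal (∑ n ∈ Finset.range (M + 1), a * (1 - r) * r ^ n) := by
            rw [ENNReal.ofReal_sum_of_nonneg]
            intro n _
            have : 0 ≤ 1 - r := by linarith
            positivity
        _ ≤ ENNReal.ofReal (a * r ^ 0) := by
            apply ENNReal.ofReal_le_ofReal
            rw [← Finset.mul_sum, mul_assoc, mul_neg_geom_sum]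
            have : 0 ≤ r ^ (M + 1) := by positivity
            nlinarith
    · rw [Finset.sum_range_succ']
      have e0 : (Iio (t 0)).indicator (fun _ => ENNReal.ofReal (a * (1 - r) * r ^ 0)) s = 0 :=
        indicator_of_notMem (by simpa using h0) _
      rw [e0, add_zero]
      have := ih (fun n => t (n + 1)) (a * r) F (by positivity) (fun n hn => by
        have := h (n + 1) hn
        rwa [pow_succ, mul_comm (r ^ n) r, ← mul_assoc] at this)
      refine le_trans (le_of_eq ?_) this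
      apply Finset.sum_congr rfl
      intro n _
      congr 2
      funext _
      congr 1
      ring

/-- Lower layer-cake bound. -/
theorem layer_lower (r : ℝ) (hr0 : 0 ≤ r) (hr1 : r ≤ 1) (t : ℕ → ℝ) (ht : ∀ n, 0 ≤ t n)
    (f : ℝ → ℝ≥0∞) (hf : ∀ s, 0 ≤ s → ∀ n, s < t n → ENNReal.ofReal (r ^ n) ≤ f s) (M : ℕ) :
    ENNReal.ofReal (∑ n ∈ Finset.range M, (1 - r) * r ^ n * t n) ≤
      ∫⁻ s in Ici (0 : ℝ), f s := by
  have h1 : 0 ≤ 1 - r := by linarith
  rw [ENNReal.ofReal_sum_of_nonneg (fun n _ => by have := ht n; positivity)]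
  have e : ∀ n ∈ Finset.range M, ENNReal.ofReal ((1 - r) * r ^ n * t n) =
      ∫⁻ s in Ici (0 : ℝ), (Iio (t n)).indicator (fun _ => ENNReal.ofReal ((1 - r) * r ^ n)) s :=
    fun n _ => (lint_ind _ _ (by positivity)).symm
  rw [Finset.sum_congr rfl e, ← lintegral_finsetSum _ (fun n _ =>
    Measurable.indicator measurable_const measurableSet_Iio)]
  apply setLIntegral_mono' measurableSet_Ici
  intro s hs
  have := sum_ind_le r s hr0 hr1 M t 1 (f s) zero_le_one (fun n hn => by
    rw [one_mul]; exact hf s hs n hn)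
  simpa using this

/-- Upper layer-cake bound. -/
theorem layer_upper (r : ℝ) (hr0 : 0 ≤ r) (hr1 : r < 1) (t : ℕ → ℝ) (hmono : Monotone t)
    (f : ℝ → ℝ≥0∞) (hf1 : ∀ s, f s ≤ 1)
    (hf : ∀ s, ∀ n, t n ≤ s → f s ≤ ENNReal.ofReal (r ^ (n + 1))) :
    ∫⁻ s in Ici (0 : ℝ), f s ≤ ∑' n, ENNReal.ofReal ((1 - r) * r ^ n * t n) := by
  have h1 : 0 ≤ 1 - r := by linarith
  have e : ∀ n, ENNReal.ofReal ((1 - r) * r ^ n * t n) =
      ∫⁻ s in Ici (0 : ℝ), (Iio (t n)).indicator (fun _ => ENNReal.ofReal ((1 - r) * r ^ n)) s :=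
    fun n => (lint_ind _ _ (by positivity)).symm
  simp_rw [e]
  rw [← lintegral_tsum (fun n =>
    (Measurable.indicator measurable_const measurableSet_Iio).aemeasurable)]
  apply lintegral_mono
  intro s
  by_cases hex : ∃ n, s < t n
  · classical
    set N := Nat.find hex with hN
    have hsN : s < t N := Nat.find_spec hex
    have hfN : f s ≤ ENNReal.ofReal (r ^ N) := by
      rcases Nat.eq_zero_or_pos N with h0 | h0
      · rw [h0]; simpa using hf1 s
      · have : ¬ s < t (N - 1) := Nat.find_min hex (by omega)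
        have := hf s (N - 1) (not_lt.1 this)
        rwa [Nat.sub_add_cancel h0] at this
    refine hfN.trans ?_
    have hs : HasSum (fun k => (1 - r) * r ^ (k + N)) (r ^ N) := by
      have := (hasSum_geometric_of_lt_one hr0 hr1).mul_left ((1 - r) * r ^ N)
      have h2 : (1 - r) ≠ 0 := by linarith
      have e1 : (fun k => (1 - r) * r ^ (k + N)) = fun i => (1 - r) * r ^ N * r ^ i := by
        funext k; ring
      have e2 : r ^ N = (1 - r) * r ^ N * (1 - r)⁻¹ := by field_simp
      rw [e1]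
      rw [← e2] at this
      exact this
    rw [← hs.tsum_eq, ENNReal.ofReal_tsum_of_nonneg (fun k => by positivity) hs.summable]
    calc ∑' k, ENNReal.ofReal ((1 - r) * r ^ (k + N))
        = ∑' k, (fun n => (Iio (t n)).indicator
            (fun _ => ENNReal.ofReal ((1 - r) * r ^ n)) s) (k + N) := by
          congr 1
          funext k
          have : s ∈ Iio (t (k + N)) := lt_of_lt_of_le hsN (hmono (Nat.le_add_left _ _))
          simp only [indicator_of_mem this]
      _ ≤ _ := ENNReal.tsum_comp_le_tsum_of_injective (add_left_injective N) _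
  · push Not at hex
    have : f s ≤ 0 := by
      have hlim : Tendsto (fun n => ENNReal.ofReal (r ^ (n + 1))) atTop (nhds 0) := by
        have := (tendsto_pow_atTop_nhds_zero_of_lt_one hr0 hr1).comp (tendsto_add_atTop_nat 1)
        simpa using ENNReal.tendsto_ofReal this
      exact ge_of_tendsto' hlim (fun n => hf s n (hex n))
    exact this.trans zero_le

variable {m : ℕ}

theorem survival_le_one (p : ℝ) (hp0 : 0 ≤ p) (hp1 : p ≤ 1) (T : ℝ → EuclideanSpace ℝ (Fin m))
    (j : Fin m) (d s : ℝ) : survival p T j d s ≤ 1 := by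
  unfold survival
  split_ifs
  · rw [← ENNReal.ofReal_one]
    apply ENNReal.ofReal_le_ofReal
    exact pow_le_one₀ (by linarith) (by linarith)
  · exact zero_le

theorem survival_le_of_visits (p : ℝ) (hp0 : 0 ≤ p) (hp1 : p ≤ 1)
    (T : ℝ → EuclideanSpace ℝ (Fin m)) (j : Fin m) (d : ℝ) (t : ℕ → ℝ) (ht : StrictMono t)
    (h0 : 0 ≤ t 0) (hv : ∀ n, T (t n) = pt j d) (s : ℝ) (n : ℕ) (hs : t n ≤ s) :
    survival p T j d s ≤ ENNReal.ofReal ((1 - p) ^ (n + 1)) := by
  unfold survival
  split_ifs with h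
  · apply ENNReal.ofReal_le_ofReal
    apply pow_le_pow_of_le_one (by linarith) (by linarith)
    have hsub : t '' (Finset.range (n + 1) : Set ℕ) ⊆ passes T j d s := by
      rintro _ ⟨i, hi, rfl⟩
      have hi' : i ≤ n := by simpa [Nat.lt_succ_iff] using hi
      exact ⟨⟨h0.trans (ht.monotone (Nat.zero_le i)), (ht.monotone hi').trans hs⟩, hv i⟩
    have := Set.ncard_le_ncard hsub h.1
    rwa [Set.ncard_image_of_injective _ ht.injective, Set.ncard_coe_finset,
      Finset.card_range] at this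
  · exact zero_le

theorem survival_eq_zero_of_rev (p : ℝ) (T : ℝ → EuclideanSpace ℝ (Fin m)) (j : Fin m) (d : ℝ)
    (t0 : ℝ) (h0 : 0 ≤ t0) (hv : T t0 = pt j d) (hrev : IsLocalExtr (fun u => T u j) t0)
    (s : ℝ) (hs : t0 ≤ s) : survival p T j d s = 0 := by
  unfold survival
  rw [if_neg]
  rintro ⟨-, h⟩
  exact h t0 ⟨⟨h0, hs⟩, hv⟩ hrev

theorem le_survival (p : ℝ) (hp0 : 0 ≤ p) (hp1 : p ≤ 1)
    (T : ℝ → EuclideanSpace ℝ (Fin m)) (j : Fin m) (d : ℝ) (t : ℕ → ℝ) (ht : Monotone t)
    (hv : ∀ s, 0 ≤ s → T s = pt j d → (∃ n, s = t n) ∧ ¬ IsLocalExtr (fun u => T u j) s)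
    (s : ℝ) (n : ℕ) (hs : s < t n) :
    ENNReal.ofReal ((1 - p) ^ n) ≤ survival p T j d s := by
  have hsub : passes T j d s ⊆ t '' (Finset.range n : Set ℕ) := by
    rintro u ⟨⟨hu0, hus⟩, hu⟩
    obtain ⟨⟨i, rfl⟩, -⟩ := hv u hu0 hu
    refine ⟨i, ?_, rfl⟩
    simp only [Finset.coe_range, mem_Iio]
    by_contra hcon
    have := ht (not_lt.1 hcon)
    linarith
  have hfin : (t '' (Finset.range n : Set ℕ)).Finite := (Finset.finite_toSet _).image _
  unfold survival
  rw [if_pos ⟨hfin.subset hsub, fun u hu => (hv u hu.1.1 hu.2).2⟩]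
  apply ENNReal.ofReal_le_ofReal
  apply pow_le_pow_of_le_one (by linarith) (by linarith)
  calc (passes T j d s).ncard ≤ (t '' (Finset.range n : Set ℕ)).ncard :=
        Set.ncard_le_ncard hsub hfin
    _ ≤ ((Finset.range n : Finset ℕ) : Set ℕ).ncard := Set.ncard_image_le (Finset.finite_toSet _)
    _ = n := by rw [Set.ncard_coe_finset, Finset.card_range]

/-- Interleaving of two sequences. -/
def inter (α β : ℕ → ℝ) (n : ℕ) : ℝ := if n % 2 = 0 then α (n / 2) else β (n / 2)

theorem inter_even (α β : ℕ → ℝ) (i : ℕ) : inter α β (2 * i) = α i := by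
  simp [inter]

theorem inter_odd (α β : ℕ → ℝ) (i : ℕ) : inter α β (2 * i + 1) = β i := by
  have h1 : (2 * i + 1) % 2 = 1 := by omega
  have h2 : (2 * i + 1) / 2 = i := by omega
  simp [inter, h1, h2]

theorem inter_mono (α β : ℕ → ℝ) (h1 : ∀ i, α i ≤ β i) (h2 : ∀ i, β i ≤ α (i + 1)) :
    Monotone (inter α β) := by
  apply monotone_nat_of_le_succ
  intro n
  rcases Nat.even_or_odd' n with ⟨i, rfl | rfl⟩
  · rw [inter_even, inter_odd]; exact h1 i
  · rw [inter_odd, show 2 * i + 1 + 1 = 2 * (i + 1) by ring, inter_even]; exact h2 i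

theorem inter_strictMono (α β : ℕ → ℝ) (h1 : ∀ i, α i < β i) (h2 : ∀ i, β i < α (i + 1)) :
    StrictMono (inter α β) := by
  apply strictMono_nat_of_lt_succ
  intro n
  rcases Nat.even_or_odd' n with ⟨i, rfl | rfl⟩
  · rw [inter_even, inter_odd]; exact h1 i
  · rw [inter_odd, show 2 * i + 1 + 1 = 2 * (i + 1) by ring, inter_even]; exact h2 i

theorem sum_inter (α β : ℕ → ℝ) (r : ℝ) (M : ℕ) :
    ∑ n ∈ Finset.range (2 * M), (1 - r) * r ^ n * inter α β n =
      ∑ i ∈ Finset.range M, (1 - r) * (r ^ 2) ^ i * (α i + r * β i) := by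
  induction M with
  | zero => simp
  | succ M ih =>
    rw [show 2 * (M + 1) = 2 * M + 1 + 1 by ring, Finset.sum_range_succ, Finset.sum_range_succ,
      ih, Finset.sum_range_succ, inter_even, inter_odd, ← pow_mul]
    ring

theorem pt_apply (j : Fin m) (a : ℝ) : pt j a j = a := by simp [pt]

theorem pt_zero (j : Fin m) : pt j 0 = 0 := by simp [pt]

theorem pt_eq (j j' : Fin m) (a d : ℝ) (hd : d ≠ 0) (h : pt j' a = pt j d) : j' = j ∧ a = d := by
  have h1 : pt j' a j = d := by rw [h, pt_apply]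
  by_cases hj : j' = j
  · subst hj; rw [pt_apply] at h1; exact ⟨rfl, h1⟩
  · exfalso
    have : pt j' a j = 0 := by simp [pt, Ne.symm hj]
    exact hd (by rw [← h1, this])

theorem pt_dist (j : Fin m) (a b : ℝ) : dist (pt j a) (pt j b) = |a - b| := by
  simp [pt, Real.dist_eq]

/-- The quantity `φ(b)` of the geometric strategy with base `b`. -/
noncomputable def phi (m : ℕ) (p b : ℝ) : ℝ :=
  2 * p ^ 2 * b ^ m * (1 + (1 - p) * b) / ((b - 1) * (1 - (1 - p) ^ 2 * b ^ m))

end Pool.Agent.Lib.MP_d94893_lc
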