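import Mathlib
import Pool.Agent.Lib.MP_d94893_lc.Layer

set_option autoImplicit false

open scoped ENNReal
open MeasureTheory Set Filter

namespace Pool.Agent.Lib.MP_d94893_lc

theorem ray_mono (m : ℕ) (x : ℕ → ℝ) (hx : ∀ k, x k < x (k + m)) (n c : ℕ) :
    x n ≤ x (n + c * m) := by
  induction c with
  | zero => simp
  | succ c ih =>
    refine ih.trans ?_
    rw [Nat.succ_mul, ← Nat.add_assoc]
    exact (hx _).le

theorem not_extr_affine (f : ℝ → ℝ) (s a b c e : ℝ) (he : e ≠ 0) (hs : s ∈ Ioo a b)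
    (hf : ∀ u ∈ Ioo a b, f u = e * u + c) : ¬ IsLocalExtr f s := by
  intro h
  have hev : f =ᶠ[nhds s] fun u => e * u + c :=
    Filter.eventually_of_mem (Ioo_mem_nhds hs.1 hs.2) hf
  have hd : HasDerivAt (fun u => e * u + c) e s := by
    simpa using ((hasDerivAt_id s).const_mul e).add_const c
  exact he ((h.congr hev).hasDerivAt_eq_zero hd)

theorem exists_excursion (S : ℕ → ℝ) (h0 : S 0 = 0) (hS : Tendsto S atTop atTop) (s : ℝ)
    (hs : 0 ≤ s) : ∃ k, S k ≤ s ∧ s < S (k + 1) := by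
  classical
  have hex : ∃ k, s < S (k + 1) := by
    obtain ⟨N, hN⟩ := (Filter.tendsto_atTop_atTop.1 hS) (s + 1)
    exact ⟨N, by have := hN (N + 1) (Nat.le_succ N); linarith⟩
  refine ⟨Nat.find hex, ?_, Nat.find_spec hex⟩
  rcases Nat.eq_zero_or_pos (Nat.find hex) with h | h
  · rw [h, h0]; exact hs
  · have := Nat.find_min hex (m := Nat.find hex - 1) (by omega)
    rw [Nat.sub_add_cancel h] at this
    exact not_lt.1 this

theorem sum_tendsto (x : ℕ → ℝ) (hx0 : ∀ k, 0 ≤ x k) (hx : Tendsto x atTop atTop) :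
    Tendsto (fun k => 2 * ∑ i ∈ Finset.range k, x i) atTop atTop := by
  apply Tendsto.const_mul_atTop (by norm_num : (0 : ℝ) < 2)
  rw [← tendsto_add_atTop_iff_nat 1]
  apply tendsto_atTop_mono _ hx
  intro k
  rw [Finset.sum_range_succ]
  have : 0 ≤ ∑ i ∈ Finset.range k, x i := Finset.sum_nonneg (fun i _ => hx0 i)
  linarith

theorem cyc_lower {m : ℕ} (hm : 1 ≤ m) (p : ℝ) (hp0 : 0 ≤ p) (hp1 : p ≤ 1)
    (T : ℝ → EuclideanSpace ℝ (Fin m)) (x : ℕ → ℝ) (hx0 : ∀ k, 0 ≤ x k)
    (hx : ∀ k, x k < x (k + m)) (hxt : Tendsto x atTop atTop)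
    (hT : ∀ (k : ℕ) (j : Fin m), (j : ℕ) = k % m → ∀ s ∈ Set.Icc 0 (2 * x k),
      T (2 * ∑ i ∈ Finset.range k, x i + s) = pt j (x k - |s - x k|))
    (k : ℕ) (j : Fin m) (hj : (j : ℕ) = k % m) (d : ℝ) (hd1 : x k < d) (hd2 : d < x (k + m))
    (M : ℕ) :
    ENNReal.ofReal (∑ i ∈ Finset.range M, p * ((1 - p) ^ 2) ^ i *
      ((2 * ∑ l ∈ Finset.range (k + m + i * m), x l + d) +
        (1 - p) * (2 * ∑ l ∈ Finset.range (k + m + i * m + 1), x l - d))) ≤ expTime p T j d := by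
  set S : ℕ → ℝ := fun n => ∑ l ∈ Finset.range n, x l with hS
  have hSmono : Monotone S := monotone_nat_of_le_succ (fun n => by
    simp only [hS, Finset.sum_range_succ]; have := hx0 n; linarith)
  have hSsucc : ∀ n, S (n + 1) = S n + x n := fun n => Finset.sum_range_succ _ _
  have hS0 : ∀ n, 0 ≤ S n := fun n => Finset.sum_nonneg (fun i _ => hx0 i)
  have hdpos : 0 < d := lt_of_le_of_lt (hx0 k) hd1
  let α : ℕ → ℝ := fun i => 2 * S (k + m + i * m) + d
  let β : ℕ → ℝ := fun i => 2 * S (k + m + i * m + 1) - d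
  have hbig : ∀ i, d < x (k + m + i * m) := fun i => lt_of_lt_of_le hd2 (ray_mono m x hx _ i)
  have h1 : ∀ i, α i ≤ β i := by
    intro i; simp only [α, β]; rw [hSsucc]; have := hbig i; linarith
  have h2 : ∀ i, β i ≤ α (i + 1) := by
    intro i; simp only [α, β]
    have : S (k + m + i * m + 1) ≤ S (k + m + (i + 1) * m) := hSmono (by rw [Nat.succ_mul]; omega)
    linarith
  have hmono := inter_mono α β h1 h2
  have hnn : ∀ n, 0 ≤ inter α β n := by
    intro n
    refine le_trans ?_ (hmono (Nat.zero_le n))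
    rw [show (0 : ℕ) = 2 * 0 by rfl, inter_even]
    simp only [α]; have := hS0 (k + m + 0 * m); linarith
  have key := layer_lower (1 - p) (by linarith) (by linarith) (inter α β) hnn
    (survival p T j d) (fun s _ n hn => le_survival p hp0 hp1 T j d (inter α β) hmono ?_ s n hn)
    (2 * M)
  · rw [sum_inter] at key
    simpa [α, β, hS, expTime] using key
  · intro s hs hTs
    obtain ⟨k', hk1, hk2⟩ := exists_excursion (fun n => 2 * S n) (by simp [hS])
      (sum_tendsto x hx0 hxt) s hs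
    simp only [hSsucc] at hk1 hk2
    let j' : Fin m := ⟨k' % m, Nat.mod_lt _ (by omega)⟩
    have hpos := hT k' j' rfl (s - 2 * S k') ⟨by linarith, by linarith⟩
    rw [show 2 * ∑ i ∈ Finset.range k', x i + (s - 2 * S k') = s by simp [hS]] at hpos
    obtain ⟨hjj, hval⟩ := pt_eq j j' _ d hdpos.ne' (hpos.symm.trans hTs)
    have hmod : k' % m = k % m := by rw [← hj, ← hjj]
    have hxk : d ≤ x k' := by have := abs_nonneg (s - 2 * S k' - x k'); linarith
    have hkk : k < k' := by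
      by_contra hcon
      have hle : k' ≤ k := not_lt.1 hcon
      obtain ⟨c, hc⟩ := (Nat.modEq_iff_dvd' hle).1 hmod
      have := ray_mono m x hx k' c
      rw [show k' + c * m = k by rw [Nat.mul_comm]; omega] at this
      linarith
    obtain ⟨c, hc⟩ := (Nat.modEq_iff_dvd' hkk.le).1 hmod.symm
    obtain ⟨i, rfl⟩ : ∃ i, c = i + 1 := by
      rcases c with _ | i
      · simp at hc; omega
      · exact ⟨i, rfl⟩
    have hk' : k' = k + m + i * m := by
      rw [Nat.mul_add, Nat.mul_one, Nat.mul_comm m i] at hc; omega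
    have hlt : d < x k' := by rw [hk']; exact hbig i
    have hform : ∀ u, 2 * S k' ≤ u → u ≤ 2 * S k' + 2 * x k' →
        T u j = x k' - |u - 2 * S k' - x k'| := by
      intro u hu1 hu2
      have := hT k' j' rfl (u - 2 * S k') ⟨by linarith, by linarith⟩
      rw [show 2 * ∑ i ∈ Finset.range k', x i + (u - 2 * S k') = u by simp [hS], hjj] at this
      rw [this, pt_apply]
    rcases abs_cases (s - 2 * S k' - x k') with ⟨ha, _⟩ | ⟨ha, _⟩
    · refine ⟨⟨2 * i + 1, ?_⟩, ?_⟩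
      · rw [inter_odd]; simp only [β]; rw [← hk', hSsucc]; linarith
      · apply not_extr_affine _ s (2 * S k' + x k') (2 * S k' + 2 * x k') (2 * S k' + 2 * x k')
          (-1) (by norm_num) ⟨by linarith, by linarith⟩
        intro u hu
        rw [hform u (by linarith [hu.1, hx0 k']) hu.2.le, abs_of_nonneg (by linarith [hu.1])]
        ring
    · refine ⟨⟨2 * i, ?_⟩, ?_⟩
      · rw [inter_even]; simp only [α]; rw [← hk']; linarith
      · apply not_extr_affine _ s (2 * S k') (2 * S k' + x k') (- 2 * S k')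
          1 (by norm_num) ⟨by linarith, by linarith⟩
        intro u hu
        rw [hform u hu.1.le (by linarith [hu.2, hx0 k']), abs_of_nonpos (by linarith [hu.2])]
        ring

theorem geom_bound (a q e s c : ℝ) (ha : 0 < a) (hq : 0 ≤ q) (he : 0 ≤ e) (hs0 : 0 ≤ s)
    (hs1 : s < 1)
    (h : ∀ M : ℕ, a * ∑ i ∈ Finset.range M, q ^ i + e * ∑ i ∈ Finset.range M, s ^ i ≤ c) :
    q < 1 ∧ a * (1 - q)⁻¹ + e * (1 - s)⁻¹ ≤ c := by
  have hq1 : q < 1 := by
    by_contra hcon
    have hq1 : 1 ≤ q := not_lt.1 hcon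
    obtain ⟨M, hM⟩ := exists_nat_gt (c / a)
    have h1 : (M : ℝ) ≤ ∑ i ∈ Finset.range M, q ^ i := by
      calc (M : ℝ) = ∑ i ∈ Finset.range M, (1 : ℝ) := by simp
        _ ≤ _ := Finset.sum_le_sum (fun i _ => one_le_pow₀ hq1)
    have h2 : 0 ≤ ∑ i ∈ Finset.range M, s ^ i := Finset.sum_nonneg (fun i _ => by positivity)
    have h3 := h M
    rw [div_lt_iff₀ ha] at hM
    nlinarith
  refine ⟨hq1, ?_⟩
  have t1 := (hasSum_geometric_of_lt_one hq hq1).tendsto_sum_nat
  have t2 := (hasSum_geometric_of_lt_one hs0 hs1).tendsto_sum_nat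
  exact le_of_tendsto' ((t1.const_mul a).add (t2.const_mul e)) h

theorem real_lower (m' : ℕ) (p c : ℝ) (hp0 : 0 < p) (hp1 : p < 1) (x : ℕ → ℝ)
    (hx0 : ∀ k, 0 ≤ x k) (hx : ∀ k, x k < x (k + (m' + 1))) (k0 : ℕ)
    (hk0 : ∀ k, k0 ≤ k → 1 ≤ x k)
    (H : ∀ k, k0 ≤ k → ∀ d, x k < d → d < x (k + (m' + 1)) → ∀ M : ℕ,
      p * (∑ i ∈ Finset.range M, p * ((1 - p) ^ 2) ^ i *
      ((2 * ∑ l ∈ Finset.range (k + (m' + 1) + i * (m' + 1)), x l + d) +
        (1 - p) * (2 * ∑ l ∈ Finset.range (k + (m' + 1) + i * (m' + 1) + 1), x l - d))) ≤ c * d) :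
    ∃ b : ℝ, 1 < b ∧ (1 - p) ^ 2 * b ^ (m' + 1) < 1 ∧ phi (m' + 1) p b + p ^ 2 / (2 - p) ≤ c := by
  set S : ℕ → ℝ := fun n => ∑ l ∈ Finset.range n, x l with hS
  have hSsucc : ∀ n, S (n + 1) = S n + x n := fun n => Finset.sum_range_succ _ _
  have hS0 : ∀ n, 0 ≤ S n := fun n => Finset.sum_nonneg (fun i _ => hx0 i)
  have hSpos : ∀ n, k0 + 1 ≤ n → 0 < S n := by
    intro n hn
    obtain ⟨l, rfl⟩ : ∃ l, n = l + 1 := ⟨n - 1, by omega⟩
    rw [hSsucc]; have := hS0 l; have := hk0 l (by omega); linarith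
  let ρ : ℕ → ℝ := fun k => S (k0 + 1 + k + 1) / S (k0 + 1 + k)
  have hρ1 : ∀ k, 1 ≤ ρ k := by
    intro k
    simp only [ρ]
    rw [le_div_iff₀ (hSpos _ (by omega)), hSsucc]
    have := hx0 (k0 + 1 + k); linarith
  have hbdd : BddBelow (Set.range ρ) := ⟨1, by rintro _ ⟨k, rfl⟩; exact hρ1 k⟩
  set lam : ℝ := ⨅ k, ρ k with hlam
  have hl1 : 1 ≤ lam := le_ciInf hρ1
  have hstep : ∀ n, k0 + 1 ≤ n → lam * S n ≤ S (n + 1) := by
    intro n hn
    obtain ⟨k, rfl⟩ := Nat.exists_eq_add_of_le hn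
    have := ciInf_le hbdd k
    rw [← hlam] at this
    simp only [ρ] at this
    rwa [le_div_iff₀ (hSpos _ (by omega))] at this
  have hpow : ∀ n, k0 + 1 ≤ n → ∀ l, lam ^ l * S n ≤ S (n + l) := by
    intro n hn l
    induction l with
    | zero => simp
    | succ l ih =>
      have := hstep (n + l) (by omega)
      rw [pow_succ, ← Nat.add_assoc]
      nlinarith
  set r := 1 - p with hr
  have hr0 : 0 < r := by linarith
  have hr1 : r < 1 := by linarith
  set q := r ^ 2 * lam ^ (m' + 1) with hq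
  set c' := c - p ^ 2 / (2 - p) with hc'
  set A := 2 * p ^ 2 * lam ^ m' * (1 + r * lam) with hA
  have hApos : 0 < A := by positivity
  have main : ∀ k, k0 + 1 ≤ k → q < 1 ∧ A * (1 - q)⁻¹ * S (k + 1) ≤ c' * x k := by
    intro k hk
    have hSk := hSpos (k + 1) (by omega)
    have hd : ∀ d, x k < d → d < x (k + (m' + 1)) →
        q < 1 ∧ A * (1 - q)⁻¹ * S (k + 1) ≤ c' * d := by
      intro d hd1 hd2
      have hdpos : 0 < d := lt_of_le_of_lt (hx0 k) hd1
      have hg := geom_bound (A * S (k + 1)) q (p ^ 3 * d) (r ^ 2) (c * d) (by positivity)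
        (by positivity) (by positivity) (by positivity) (by nlinarith) (by
          intro M
          refine le_trans ?_ (H k (by omega) d hd1 hd2 M)
          rw [Finset.mul_sum _ _ (A * S (k + 1)), Finset.mul_sum _ _ (p ^ 3 * d),
            Finset.mul_sum _ _ p, ← Finset.sum_add_distrib]
          apply Finset.sum_le_sum
          intro i _
          have e1 := hpow (k + 1) (by omega) (m' + i * (m' + 1))
          have e2 := hpow (k + 1) (by omega) (m' + 1 + i * (m' + 1))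
          rw [show k + 1 + (m' + i * (m' + 1)) = k + (m' + 1) + i * (m' + 1) by ring] at e1
          rw [show k + 1 + (m' + 1 + i * (m' + 1)) = k + (m' + 1) + i * (m' + 1) + 1 by ring] at e2
          have e3 : A * S (k + 1) * q ^ i + p ^ 3 * d * (r ^ 2) ^ i =
              p * (p * (r ^ 2) ^ i * ((2 * (lam ^ (m' + i * (m' + 1)) * S (k + 1)) + d) +
                r * (2 * (lam ^ (m' + 1 + i * (m' + 1)) * S (k + 1)) - d))) := by
            have hp : p = 1 - r := by rw [hr]; ring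
            rw [hA, hq, mul_pow, ← pow_mul lam, mul_comm (m' + 1) i, pow_add, pow_add, pow_add]
            rw [hp]; ring
          rw [e3]
          change _ ≤ p * (p * (r ^ 2) ^ i * ((2 * S _ + d) + r * (2 * S _ - d)))
          gcongr)
      refine ⟨hg.1, ?_⟩
      have e4 : p ^ 3 * d * (1 - r ^ 2)⁻¹ = p ^ 2 / (2 - p) * d := by
        have h1 : 1 - r ^ 2 = p * (2 - p) := by rw [hr]; ring
        have h2 : (2 - p) ≠ 0 := by linarith
        rw [h1]; field_simp
      have := hg.2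
      rw [e4] at this
      rw [hc']; linarith
    have hne : x k < x (k + (m' + 1)) := hx k
    refine ⟨(hd ((x k + x (k + (m' + 1))) / 2) (by linarith) (by linarith)).1, ?_⟩
    have ht : Tendsto (fun d => c' * d) (nhdsWithin (x k) (Ioi (x k))) (nhds (c' * x k)) :=
      ((continuous_const.mul continuous_id).tendsto (x k)).mono_left nhdsWithin_le_nhds
    apply ge_of_tendsto ht
    filter_upwards [Ioo_mem_nhdsGT hne] with d hd'
    exact (hd d hd'.1 hd'.2).2
  have hq1 : q < 1 := (main (k0 + 1) le_rfl).1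
  set ψ := A * (1 - q)⁻¹ with hψ
  have hψpos : 0 < ψ := by
    have : 0 < 1 - q := by linarith
    positivity
  have hc'pos : 0 < c' := by
    have h1 := (main (k0 + 1) le_rfl).2
    have h2 := hSpos (k0 + 1 + 1) (by omega)
    have h3 := hk0 (k0 + 1) (by omega)
    by_contra hcon
    have : c' * x (k0 + 1) ≤ 0 := mul_nonpos_of_nonpos_of_nonneg (not_lt.1 hcon) (by linarith)
    nlinarith
  have hineq : ∀ k, k0 + 1 ≤ k → c' * S k ≤ (c' - ψ) * S (k + 1) := by
    intro k hk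
    have h1 := (main k hk).2
    have h2 := hSsucc k
    have : x k = S (k + 1) - S k := by linarith
    rw [this] at h1
    linarith
  have hdiff : 0 < c' - ψ := by
    have h1 := hineq (k0 + 1) le_rfl
    have h2 := hSpos (k0 + 1 + 1) (by omega)
    have h3 := hSpos (k0 + 1) le_rfl
    by_contra hcon
    have : (c' - ψ) * S (k0 + 1 + 1) ≤ 0 := mul_nonpos_of_nonpos_of_nonneg (not_lt.1 hcon) h2.le
    nlinarith
  have hlam2 : c' / (c' - ψ) ≤ lam := by
    apply le_ciInf
    intro k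
    simp only [ρ]
    rw [div_le_div_iff₀ hdiff (hSpos _ (by omega))]
    have := hineq (k0 + 1 + k) (by omega)
    linarith
  rw [div_le_iff₀ hdiff] at hlam2
  have hl2 : 1 < lam := by
    by_contra hcon
    have : lam = 1 := le_antisymm (not_lt.1 hcon) hl1
    rw [this] at hlam2; linarith
  refine ⟨lam, hl2, hq1, ?_⟩
  have hphi : phi (m' + 1) p lam = ψ * lam / (lam - 1) := by
    have h1 : lam - 1 ≠ 0 := by linarith
    have h2 : 1 - q ≠ 0 := by linarith
    unfold phi
    rw [← hr, ← hq, hψ, hA]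
    field_simp
    ring
  have : phi (m' + 1) p lam ≤ c' := by
    rw [hphi, div_le_iff₀ (by linarith)]
    linarith
  rw [hc'] at this
  linarith

theorem ratio_lower {m : ℕ} (hm : 1 ≤ m) (p : ℝ) (hp0 : 0 < p) (hp1 : p < 1)
    (T : ℝ → EuclideanSpace ℝ (Fin m)) (hT : IsCyclicMonotone T) (hfin : ratio p T ≠ ⊤) :
    ∃ b : ℝ, 1 < b ∧ (1 - p) ^ 2 * b ^ m < 1 ∧
      phi m p b + p ^ 2 / (2 - p) ≤ (ratio p T).toReal := by
  obtain ⟨x, hx0, hx, hxt, hT⟩ := hT
  obtain ⟨m', rfl⟩ : ∃ m', m = m' + 1 := ⟨m - 1, by omega⟩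
  obtain ⟨k0, hk0⟩ := (Filter.tendsto_atTop_atTop.1 hxt) 1
  apply real_lower m' p _ hp0 hp1 x hx0 hx k0 hk0
  intro k hk d hd1 hd2 M
  have hd : 1 ≤ d := (hk0 k hk).trans hd1.le
  let j : Fin (m' + 1) := ⟨k % (m' + 1), Nat.mod_lt _ (by omega)⟩
  have h1 := cyc_lower hm p hp0.le hp1.le T x hx0 hx hxt hT k j rfl d hd1 hd2 M
  have h2 : ENNReal.ofReal p * expTime p T j d / ENNReal.ofReal d ≤ ratio p T := by
    unfold ratio
    exact le_iSup_of_le j (le_iSup₂_of_le d hd le_rfl)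
  rw [ENNReal.div_le_iff (by simp; linarith) ENNReal.ofReal_ne_top] at h2
  have h3 := (mul_le_mul_right h1 (ENNReal.ofReal p)).trans h2
  rw [← ENNReal.ofReal_mul hp0.le, ← ENNReal.ofReal_toReal hfin,
    ← ENNReal.ofReal_mul ENNReal.toReal_nonneg] at h3
  exact (ENNReal.ofReal_le_ofReal_iff (by positivity)).1 h3

end Pool.Agent.Lib.MP_d94893_lc
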