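import Mathlib
import Pool.Agent.Lib.MP_d94893_lc.Lower

set_option autoImplicit false

open scoped ENNReal
open MeasureTheory Set Filter

namespace Pool.Agent.Lib.MP_d94893_lc

theorem glue {E : Type} (τ : ℕ → ℝ) (hτ : StrictMono τ) (h0 : τ 0 = 0)
    (ht : Tendsto τ atTop atTop) (g : ℕ → ℝ → E)
    (hg : ∀ n, g n (τ (n + 1) - τ n) = g (n + 1) 0) :
    ∃ T : ℝ → E, ∀ n u, τ n ≤ u → u ≤ τ (n + 1) → T u = g n (u - τ n) := by
  have hex := exists_excursion τ h0 ht
  choose! N hN1 hN2 using hex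
  have huniq : ∀ n u, τ n ≤ u → u < τ (n + 1) → N u = n := by
    intro n u h1 h2
    have hu : 0 ≤ u := by
      have := hτ.monotone (Nat.zero_le n); linarith
    have a1 : N u < n + 1 := hτ.lt_iff_lt.1 (lt_of_le_of_lt (hN1 u hu) h2)
    have a2 : n < N u + 1 := hτ.lt_iff_lt.1 (lt_of_le_of_lt h1 (hN2 u hu))
    omega
  refine ⟨fun u => g (N u) (u - τ (N u)), ?_⟩
  intro n u h1 h2
  rcases h2.lt_or_eq with h | h
  · simp only [huniq n u h1 h]
  · subst h
    simp only [huniq (n + 1) _ le_rfl (hτ (Nat.lt_succ_self _))]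
    rw [sub_self, hg]

theorem iso_unit {E : Type} [PseudoMetricSpace E] (T : ℝ → E) (a c : ℝ)
    (h : ∀ u ∈ Icc a c, ∀ v ∈ Icc a c, dist (T u) (T v) = |u - v|) :
    HasUnitSpeedOn T (Icc a c) := by
  unfold HasUnitSpeedOn
  rw [hasConstantSpeedOnWith_iff_ordered]
  intro x hx y hy hxy
  have hsub : Icc x y ⊆ Icc a c := Icc_subset_Icc hx.1 hy.2
  rw [inter_eq_right.2 hsub]
  simp only [NNReal.coe_one, one_mul]
  apply le_antisymm
  · have hl : LipschitzOnWith 1 T (Icc x y) := by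
      apply LipschitzOnWith.of_dist_le_mul
      intro u hu v hv
      rw [h u (hsub hu) v (hsub hv), Real.dist_eq]; simp
    have := hl.comp_eVariationOn_le (g := id) (s := Icc x y) (mapsTo_id _)
    rw [eVariationOn_id_Icc] at this
    simpa using this
  · have := eVariationOn.edist_le T (s := Icc x y) (x := y) (y := x) ⟨hxy, le_rfl⟩ ⟨le_rfl, hxy⟩
    rwa [edist_dist, h y hy x hx, abs_of_nonneg (by linarith)] at this

theorem leg_unit {m : ℕ} (T : ℝ → EuclideanSpace ℝ (Fin m)) (j : Fin m) (a c e k : ℝ)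
    (he : |e| = 1) (h : ∀ u, a ≤ u → u ≤ c → T u = pt j (e * u + k)) :
    HasUnitSpeedOn T (Icc a c) := by
  apply iso_unit
  intro u hu v hv
  rw [h u hu.1 hu.2, h v hv.1 hv.2, pt_dist, show e * u + k - (e * v + k) = e * (u - v) by ring,
    abs_mul, he, one_mul]

/-- The four legs of every excursion of the re-sweeping trajectory. -/
structure Legs {m : ℕ} (T : ℝ → EuclideanSpace ℝ (Fin m)) (τ x y : ℕ → ℝ) (ε : ℝ) : Prop where
  l1 : ∀ (n : ℕ) (j : Fin m), (j : ℕ) = n % m → ∀ u, τ n ≤ u → u ≤ τ n + (1 + ε) * y n →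
    T u = pt j (u - τ n)
  l2 : ∀ (n : ℕ) (j : Fin m), (j : ℕ) = n % m → ∀ u, τ n + (1 + ε) * y n ≤ u →
    u ≤ τ n + (1 + 2 * ε) * y n → T u = pt j (2 * (1 + ε) * y n - (u - τ n))
  l3 : ∀ (n : ℕ) (j : Fin m), (j : ℕ) = n % m → ∀ u, τ n + (1 + 2 * ε) * y n ≤ u →
    u ≤ τ n + x n + 2 * ε * y n → T u = pt j (u - τ n - 2 * ε * y n)
  l4 : ∀ (n : ℕ) (j : Fin m), (j : ℕ) = n % m → ∀ u, τ n + x n + 2 * ε * y n ≤ u →
    u ≤ τ (n + 1) → T u = pt j (τ (n + 1) - u)

theorem exists_legs {m : ℕ} (hm : 1 ≤ m) (τ x y : ℕ → ℝ) (ε : ℝ) (hε : 0 < ε)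
    (hy : ∀ n, 0 < y n) (hxy : ∀ n, (1 + ε) * y n ≤ x n) (h0 : τ 0 = 0)
    (hτ : ∀ n, τ (n + 1) = τ n + 2 * x n + 2 * ε * y n) (ht : Tendsto τ atTop atTop) :
    ∃ T : ℝ → EuclideanSpace ℝ (Fin m), IsTrajectory T ∧ Legs T τ x y ε := by
  have hεy : ∀ n, 0 < ε * y n := fun n => mul_pos hε (hy n)
  have hsm : StrictMono τ := strictMono_nat_of_lt_succ (fun n => by
    have := hy n; have := hεy n; have := hxy n; rw [hτ]; nlinarith)
  let J : ℕ → Fin m := fun n => ⟨n % m, Nat.mod_lt _ (by omega)⟩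
  let h : ℕ → ℝ → ℝ := fun n s =>
    min (max (min s (2 * (1 + ε) * y n - s)) (s - 2 * ε * y n)) (2 * x n + 2 * ε * y n - s)
  have h1 : ∀ n s, s ≤ (1 + ε) * y n → h n s = s := by
    intro n s hs
    have := hy n; have := hεy n; have := hxy n
    simp only [h]
    rw [min_eq_left (a := s) (by linarith), max_eq_left (by linarith), min_eq_left (by linarith)]
  have h2 : ∀ n s, (1 + ε) * y n ≤ s → s ≤ (1 + 2 * ε) * y n → h n s = 2 * (1 + ε) * y n - s := by
    intro n s hs hs'
    have := hy n; have := hεy n; have := hxy n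
    simp only [h]
    rw [min_eq_right (a := s) (by linarith), max_eq_left (by linarith), min_eq_left (by linarith)]
  have h3 : ∀ n s, (1 + 2 * ε) * y n ≤ s → s ≤ x n + 2 * ε * y n → h n s = s - 2 * ε * y n := by
    intro n s hs hs'
    have := hy n; have := hεy n; have := hxy n
    simp only [h]
    rw [min_eq_right (a := s) (by linarith), max_eq_right (by linarith),
      min_eq_left (by linarith)]
  have h4 : ∀ n s, x n + 2 * ε * y n ≤ s → h n s = 2 * x n + 2 * ε * y n - s := by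
    intro n s hs
    have := hy n; have := hεy n; have := hxy n
    simp only [h]
    rw [min_eq_right (a := s) (by linarith), max_eq_right (by linarith),
      min_eq_right (by linarith)]
  obtain ⟨T, hT⟩ := glue τ hsm h0 ht (fun n s => pt (J n) (h n s)) (by
    intro n
    have := hy n; have := hεy n; have := hxy n; have := hy (n + 1); have := hεy (n + 1)
    rw [h4 n _ (by rw [hτ]; linarith), h1 (n + 1) 0 (by linarith), hτ, pt_zero,
      show 2 * x n + 2 * ε * y n - (τ n + 2 * x n + 2 * ε * y n - τ n) = 0 by ring, pt_zero])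
  have hJ : ∀ n (j : Fin m), (j : ℕ) = n % m → J n = j := fun n j hj => Fin.ext hj.symm
  have L : Legs T τ x y ε := by
    constructor
    · intro n j hj u hu1 hu2
      have := hy n; have := hεy n; have := hxy n
      rw [hT n u hu1 (by rw [hτ]; linarith), hJ n j hj, h1 n _ (by linarith)]
    · intro n j hj u hu1 hu2
      have := hy n; have := hεy n; have := hxy n
      rw [hT n u (by linarith) (by rw [hτ]; linarith), hJ n j hj,
        h2 n _ (by linarith) (by linarith)]
    · intro n j hj u hu1 hu2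
      have := hy n; have := hεy n; have := hxy n
      rw [hT n u (by linarith) (by rw [hτ]; linarith), hJ n j hj,
        h3 n _ (by linarith) (by linarith)]
    · intro n j hj u hu1 hu2
      have := hy n; have := hεy n; have := hxy n
      rw [hT n u (by linarith) hu2, hJ n j hj, h4 n _ (by linarith), hτ]
      congr 1; ring
  refine ⟨T, ⟨?_, ?_, ?_⟩, L⟩
  · have := L.l1 0 (J 0) rfl 0 (by rw [h0]) (by
      rw [h0]; have := hy 0; have := hεy 0; linarith)
    rw [this, h0, sub_self, pt_zero]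
  · intro t ht0
    obtain ⟨n, hn1, hn2⟩ := exists_excursion τ h0 ht t ht0
    have := hy n; have := hεy n; have := hxy n
    by_cases c1 : t ≤ τ n + (1 + ε) * y n
    · exact ⟨J n, _, by linarith, L.l1 n (J n) rfl t hn1 c1⟩
    by_cases c2 : t ≤ τ n + (1 + 2 * ε) * y n
    · exact ⟨J n, _, by linarith, L.l2 n (J n) rfl t (by linarith) c2⟩
    by_cases c3 : t ≤ τ n + x n + 2 * ε * y n
    · exact ⟨J n, _, by linarith, L.l3 n (J n) rfl t (by linarith) c3⟩
    · exact ⟨J n, _, by linarith, L.l4 n (J n) rfl t (by linarith) hn2.le⟩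
  · have hex : ∀ n, HasUnitSpeedOn T (Icc (τ n) (τ (n + 1))) := by
      intro n
      have u1 := leg_unit T (J n) _ _ 1 (- τ n) (by simp) (fun u hu1 hu2 => by
        rw [L.l1 n (J n) rfl u hu1 hu2]; congr 1; ring)
      have u2 := leg_unit T (J n) _ _ (-1) (2 * (1 + ε) * y n + τ n) (by simp) (fun u hu1 hu2 => by
        rw [L.l2 n (J n) rfl u hu1 hu2]; congr 1; ring)
      have u3 := leg_unit T (J n) _ _ 1 (- τ n - 2 * ε * y n) (by simp) (fun u hu1 hu2 => by
        rw [L.l3 n (J n) rfl u hu1 hu2]; congr 1; ring)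
      have u4 := leg_unit T (J n) _ _ (-1) (τ (n + 1)) (by simp) (fun u hu1 hu2 => by
        rw [L.l4 n (J n) rfl u hu1 hu2]; congr 1; ring)
      exact ((u1.Icc_Icc u2).Icc_Icc u3).Icc_Icc u4
    have hall : ∀ n, HasUnitSpeedOn T (Icc (τ 0) (τ (n + 1))) := by
      intro n
      induction n with
      | zero => exact hex 0
      | succ n ih => exact ih.Icc_Icc (hex (n + 1))
    intro a ha c hc
    obtain ⟨N, hN⟩ := (Filter.tendsto_atTop_atTop.1 ht) (max a c)
    have hN' := hN (N + 1) (Nat.le_succ N)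
    have ha' : a ∈ Icc (τ 0) (τ (N + 1)) := ⟨by rw [h0]; exact ha, (le_max_left _ _).trans hN'⟩
    have hc' : c ∈ Icc (τ 0) (τ (N + 1)) := ⟨by rw [h0]; exact hc, (le_max_right _ _).trans hN'⟩
    have := hall N ha' hc'
    rw [inter_eq_right.2 (Icc_subset_Icc ha'.1 hc'.2)] at this
    rw [inter_eq_right.2 (show Icc a c ⊆ Ici 0 from fun u hu => le_trans ha hu.1)]
    exact this

end Pool.Agent.Lib.MP_d94893_lc
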