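import Mathlib
import Pool.Agent.Lib.MP_d94893_lc.Path

set_option autoImplicit false

open scoped ENNReal
open MeasureTheory Set Filter

namespace Pool.Agent.Lib.MP_d94893_lc

theorem upper_of_sums {m : ℕ} (p : ℝ) (hp0 : 0 < p) (hp1 : p < 1)
    (T : ℝ → EuclideanSpace ℝ (Fin m)) (j : Fin m) (d : ℝ) (t : ℕ → ℝ) (hmono : Monotone t)
    (h0 : 0 ≤ t 0)
    (hs : ∀ s k, t k ≤ s → survival p T j d s ≤ ENNReal.ofReal ((1 - p) ^ (k + 1))) (V : ℝ)
    (hV : ∀ M, ∑ k ∈ Finset.range M, p * (1 - p) ^ k * t k ≤ V) :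
    expTime p T j d ≤ ENNReal.ofReal V := by
  have h := layer_upper (1 - p) (by linarith) (by linarith) t hmono (survival p T j d)
    (survival_le_one p hp0.le hp1.le T j d) hs
  refine h.trans (ENNReal.tsum_le_of_sum_range_le ?_)
  intro M
  have hr : 0 ≤ 1 - p := by linarith
  rw [← ENNReal.ofReal_sum_of_nonneg (fun k _ => by
    have := h0.trans (hmono (Nat.zero_le k))
    have h2 : 0 ≤ 1 - (1 - p) := by linarith
    positivity)]
  apply ENNReal.ofReal_le_ofReal
  simpa using hV M

theorem locmax_of_legs {m : ℕ} (T : ℝ → EuclideanSpace ℝ (Fin m)) (j : Fin m) (a s c v : ℝ)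
    (h1 : a < s) (h2 : s < c) (hl : ∀ u, a ≤ u → u ≤ s → T u = pt j (v - (s - u)))
    (hr : ∀ u, s ≤ u → u ≤ c → T u = pt j (v - (u - s))) :
    IsLocalExtr (fun u => T u j) s := by
  right
  have hs : T s j = v := by rw [hl s h1.le le_rfl, pt_apply]; ring
  filter_upwards [Ioo_mem_nhds h1 h2] with u hu
  rw [hs]
  rcases le_total u s with h | h
  · rw [hl u hu.1.le h, pt_apply]; linarith
  · rw [hr u h hu.2.le, pt_apply]; linarith

theorem geom_le (q : ℝ) (h0 : 0 ≤ q) (h1 : q < 1) (M : ℕ) :
    ∑ i ∈ Finset.range M, q ^ i ≤ (1 - q)⁻¹ :=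
  sum_le_hasSum _ (fun i _ => by positivity) (hasSum_geometric_of_lt_one h0 h1)

/-- Cons two entries in front of a sequence. -/
def cons2 (a b : ℝ) (t : ℕ → ℝ) : ℕ → ℝ
  | 0 => a
  | 1 => b
  | k + 2 => t k

section
variable {m : ℕ} (p : ℝ) (T : ℝ → EuclideanSpace ℝ (Fin m)) (τ x y : ℕ → ℝ) (ε : ℝ)

theorem exp_upper (_hm : 1 ≤ m) (hp0 : 0 < p) (hp1 : p < 1) (hε : 0 < ε)
    (hy : ∀ n, 0 < y n) (hxy : ∀ n, (1 + ε) * y n < x n) (h0 : τ 0 = 0)
    (hτ : ∀ n, τ (n + 1) = τ n + 2 * x n + 2 * ε * y n) (hyx : ∀ n, y (n + m) = x n)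
    (L : Legs T τ x y ε) (n : ℕ) (j : Fin m) (hj : (j : ℕ) = n % m) (d : ℝ)
    (hd1 : y n < d) (hd2 : d ≤ x n) (u b B : ℝ) (hu : 0 ≤ u) (hb : 0 ≤ b) (hB : 0 ≤ B)
    (hq : (1 - p) ^ 2 * B < 1)
    (hu1 : ∀ i, τ (n + i * m) ≤ u * B ^ i) (hu2 : ∀ i, τ (n + i * m + 1) ≤ u * b * B ^ i) :
    let V := p * u * (1 + (1 - p) * b) * (1 - (1 - p) ^ 2 * B)⁻¹ + p / (2 - p) * d +
      2 * p * ε * y n
    ((1 + ε) * y n < d → expTime p T j d ≤ ENNReal.ofReal V) ∧
    (d ≤ (1 + ε) * y n → expTime p T j d ≤ ENNReal.ofReal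
      (p * (u + d) + p * (1 - p) * (u + 2 * (1 + ε) * y n - d) + (1 - p) ^ 2 * V)) := by
  intro V
  have hεy : ∀ n, 0 < ε * y n := fun n => mul_pos hε (hy n)
  have hsm : StrictMono τ := strictMono_nat_of_lt_succ (fun n => by
    have := hy n; have := hεy n; have := hxy n; rw [hτ]; nlinarith)
  have hτ0 : ∀ n, 0 ≤ τ n := fun n => by have := hsm.monotone (Nat.zero_le n); linarith
  have hdpos : 0 < d := (hy n).trans hd1
  have hxm : ∀ k, x k < x (k + m) := by
    intro k
    have := hxy (k + m); have := hεy (k + m); rw [← hyx k]; linarith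
  have hji : ∀ i, (j : ℕ) = (n + i * m) % m := fun i => by rw [hj, Nat.add_mul_mod_self_right]
  have hxi : ∀ i, x n ≤ x (n + i * m) := fun i => ray_mono m x hxm n i
  have hyi : ∀ i, x n ≤ y (n + (i + 1) * m) := fun i => by
    rw [Nat.succ_mul, ← Nat.add_assoc, hyx]; exact hxi i
  let α : ℕ → ℝ := fun i => τ (n + i * m) + d + (if i = 0 then 2 * ε * y n else 0)
  let β : ℕ → ℝ := fun i => τ (n + i * m + 1) - d
  have hα0 : α 0 = τ n + d + 2 * ε * y n := by simp [α]
  have hαs : ∀ i, α (i + 1) = τ (n + (i + 1) * m) + d := by intro i; simp [α]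
  have h1 : ∀ i, α i ≤ β i ∧ (d < x n → α i < β i) := by
    intro i
    rcases i with _ | i
    · rw [hα0]; simp only [β, Nat.zero_mul, Nat.add_zero]; rw [hτ]
      exact ⟨by linarith, fun _ => by linarith⟩
    · rw [hαs]; simp only [β]; rw [hτ]
      have := hxi (i + 1); have := hεy (n + (i + 1) * m)
      exact ⟨by linarith, fun _ => by linarith⟩
  have h2 : ∀ i, β i < α (i + 1) := by
    intro i
    rw [hαs]; simp only [β]
    have : τ (n + i * m + 1) ≤ τ (n + (i + 1) * m) := hsm.monotone (by rw [Nat.succ_mul]; omega)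
    linarith
  have hmono := inter_mono α β (fun i => (h1 i).1) (fun i => (h2 i).le)
  have hA0 : inter α β 0 = τ n + d + 2 * ε * y n := by
    rw [← hα0]; exact inter_even α β 0
  have hvis : ∀ k, T (inter α β k) = pt j d := by
    intro k
    rcases Nat.even_or_odd' k with ⟨i, rfl | rfl⟩
    · rw [inter_even]
      rcases i with _ | i
      · rw [hα0, L.l3 n j hj _ (by linarith) (by linarith)]
        congr 1; ring
      · have := hyi i; have := hεy (n + (i + 1) * m)
        rw [hαs, L.l1 _ j (hji _) _ (by linarith) (by linarith)]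
        congr 1; ring
    · rw [inter_odd]
      simp only [β]
      have := hxi i
      rw [L.l4 _ j (hji _) _ (by rw [hτ]; linarith) (by linarith)]
      congr 1; ring
  have hnn : ∀ k, 0 ≤ inter α β k := fun k => by
    have := hmono (Nat.zero_le k); have := hτ0 n; have := hεy n; linarith
  have hr : 0 < 1 - p := by linarith
  have hsum : ∀ M, ∑ k ∈ Finset.range M, p * (1 - p) ^ k * inter α β k ≤ V := by
    intro M
    have e1 : ∑ k ∈ Finset.range M, p * (1 - p) ^ k * inter α β k ≤
        ∑ k ∈ Finset.range (2 * (M + 1)), p * (1 - p) ^ k * inter α β k :=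
      Finset.sum_le_sum_of_subset_of_nonneg (Finset.range_mono (by omega))
        (fun k _ _ => by have := hnn k; positivity)
    refine e1.trans ?_
    have e2 := sum_inter α β (1 - p) (M + 1)
    rw [show 1 - (1 - p) = p by ring] at e2
    rw [e2]
    have e3 : ∑ i ∈ Finset.range (M + 1), p * ((1 - p) ^ 2) ^ i * (α i + (1 - p) * β i) ≤
        ∑ i ∈ Finset.range (M + 1), (p * u * (1 + (1 - p) * b) * ((1 - p) ^ 2 * B) ^ i +
          p * p * d * ((1 - p) ^ 2) ^ i + (if i = 0 then 2 * p * ε * y n else 0)) := by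
      apply Finset.sum_le_sum
      intro i _
      have a1 := hu1 i
      have a2 := hu2 i
      have a3 : p * u * (1 + (1 - p) * b) * ((1 - p) ^ 2 * B) ^ i +
          p * p * d * ((1 - p) ^ 2) ^ i + (if i = 0 then 2 * p * ε * y n else 0) =
          p * ((1 - p) ^ 2) ^ i * ((u * B ^ i + d + (if i = 0 then 2 * ε * y n else 0)) +
            (1 - p) * (u * b * B ^ i - d)) := by
        rw [mul_pow]
        split_ifs with hi
        · subst hi; ring
        · ring
      rw [a3]
      simp only [α, β]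
      gcongr
    refine e3.trans ?_
    rw [Finset.sum_add_distrib, Finset.sum_add_distrib, ← Finset.mul_sum, ← Finset.mul_sum,
      Finset.sum_ite_eq' (Finset.range (M + 1)) 0, if_pos (by simp)]
    have g1 := geom_le ((1 - p) ^ 2 * B) (by positivity) hq (M + 1)
    have g2 := geom_le ((1 - p) ^ 2) (by positivity) (by nlinarith) (M + 1)
    have e4 : p * p * d * (1 - (1 - p) ^ 2)⁻¹ = p / (2 - p) * d := by
      have h1 : 1 - (1 - p) ^ 2 = p * (2 - p) := by ring
      have h2 : (2 - p) ≠ 0 := by linarith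
      rw [h1]; field_simp
    simp only [V]
    rw [← e4]
    gcongr
  constructor
  · intro _
    refine upper_of_sums p hp0 hp1 T j d (inter α β) hmono (hnn 0) ?_ V hsum
    intro s k hk
    rcases hd2.lt_or_eq with hlt | heq
    · exact survival_le_of_visits p hp0.le hp1.le T j d _
        (inter_strictMono α β (fun i => (h1 i).2 hlt) h2) (hnn 0) hvis s k hk
    · rw [survival_eq_zero_of_rev p T j d (inter α β 0) (hnn 0) (hvis 0) ?_ s
        ((hmono (Nat.zero_le k)).trans hk)]
      · exact zero_le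
      · have := hy n; have := hεy n; have := hxy n
        rw [hA0]
        apply locmax_of_legs T j (τ n + (1 + 2 * ε) * y n) _ (τ (n + 1)) d (by linarith)
          (by rw [hτ]; linarith)
        · intro w hw1 hw2
          rw [L.l3 n j hj w hw1 (by linarith)]; congr 1; ring
        · intro w hw1 hw2
          rw [L.l4 n j hj w (by linarith) hw2, hτ]; congr 1; rw [heq]; ring
  · intro hd3
    have hdx : d < x n := lt_of_le_of_lt hd3 (hxy n)
    have hsmA := inter_strictMono α β (fun i => (h1 i).2 hdx) h2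
    let t : ℕ → ℝ := cons2 (τ n + d) (τ n + 2 * (1 + ε) * y n - d) (inter α β)
    have ht0 : t 0 = τ n + d := rfl
    have ht1 : t 1 = τ n + 2 * (1 + ε) * y n - d := rfl
    have ht2 : ∀ k, t (k + 2) = inter α β k := fun k => rfl
    have hstep : ∀ k, t k ≤ t (k + 1) ∧ (d < (1 + ε) * y n → t k < t (k + 1)) := by
      intro k
      rcases k with _ | _ | k
      · rw [ht0, ht1]; exact ⟨by linarith, fun _ => by linarith⟩
      · rw [ht1, ht2, hA0]; exact ⟨by linarith, fun _ => by linarith⟩
      · rw [ht2, ht2 (k + 1)]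
        have := hsmA (Nat.lt_succ_self k)
        exact ⟨this.le, fun _ => this⟩
    have htmono : Monotone t := monotone_nat_of_le_succ (fun k => (hstep k).1)
    have htnn : 0 ≤ t 0 := by rw [ht0]; have := hτ0 n; linarith
    have htvis : ∀ k, T (t k) = pt j d := by
      intro k
      rcases k with _ | _ | k
      · rw [ht0, L.l1 n j hj _ (by linarith) (by linarith)]; congr 1; ring
      · rw [ht1, L.l2 n j hj _ (by linarith) (by linarith)]; congr 1; ring
      · rw [ht2]; exact hvis k
    refine upper_of_sums p hp0 hp1 T j d t htmono htnn ?_ _ ?_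
    · intro s k hk
      rcases hd3.lt_or_eq with hlt | heq
      · exact survival_le_of_visits p hp0.le hp1.le T j d _
          (strictMono_nat_of_lt_succ (fun k => (hstep k).2 hlt)) htnn htvis s k hk
      · rw [survival_eq_zero_of_rev p T j d (t 0) htnn (htvis 0) ?_ s
          ((htmono (Nat.zero_le k)).trans hk)]
        · exact zero_le
        · have := hy n; have := hεy n; have := hxy n
          rw [ht0]
          apply locmax_of_legs T j (τ n) _ (τ n + (1 + 2 * ε) * y n) d (by linarith)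
            (by linarith)
          · intro w hw1 hw2
            rw [L.l1 n j hj w hw1 (by linarith)]; congr 1; ring
          · intro w hw1 hw2
            rw [L.l2 n j hj w (by linarith) hw2]; congr 1; rw [heq]; ring
    · intro M
      have e1 : ∑ k ∈ Finset.range M, p * (1 - p) ^ k * t k ≤
          ∑ k ∈ Finset.range (M + 1 + 1), p * (1 - p) ^ k * t k :=
        Finset.sum_le_sum_of_subset_of_nonneg (Finset.range_mono (by omega))
          (fun k _ _ => by have := htnn.trans (htmono (Nat.zero_le k)); positivity)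
      refine e1.trans ?_
      rw [Finset.sum_range_succ', Finset.sum_range_succ']
      have e2 : ∑ k ∈ Finset.range M, p * (1 - p) ^ (k + 1 + 1) * t (k + 1 + 1) =
          (1 - p) ^ 2 * ∑ k ∈ Finset.range M, p * (1 - p) ^ k * inter α β k := by
        rw [Finset.mul_sum]
        apply Finset.sum_congr rfl
        intro k _
        rw [ht2]; ring
      rw [e2, ht0, ht1]
      have a1 : τ n ≤ u := by simpa using hu1 0
      have a2 := hsum M
      have a3 : (1 - p) ^ 2 * ∑ k ∈ Finset.range M, p * (1 - p) ^ k * inter α β k ≤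
          (1 - p) ^ 2 * V := by gcongr
      have a4 : p * (1 - p) ^ (0 + 1) * (τ n + 2 * (1 + ε) * y n - d) ≤
          p * (1 - p) * (u + 2 * (1 + ε) * y n - d) := by
        rw [zero_add, pow_one]; gcongr
      have a5 : p * (1 - p) ^ 0 * (τ n + d) ≤ p * (u + d) := by
        rw [pow_zero, mul_one]; gcongr
      linarith

end

end Pool.Agent.Lib.MP_d94893_lc
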