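import Mathlib
import Pool.Agent.Lib.MP_d94893_lc.Upper

set_option autoImplicit false

open scoped ENNReal
open MeasureTheory Set Filter

namespace Pool.Agent.Lib.MP_d94893_lc

theorem numA (p r b B G ε y d φ : ℝ) (hp : 0 < p) (hr : 0 < r) (hb : 1 < b) (hB : b ≤ B)
    (hG : 1 ≤ G) (hε : 0 < ε) (hε1 : ε ≤ 1) (hy : 0 < y) (hd : (1 + ε) * y ≤ d) (hr1 : r ≤ 1)
    (hφ : φ = 2 * p ^ 2 * B * (1 + r * b) * G / (b - 1)) :
    φ * (1 + ε / B) * y + 2 * p ^ 2 * ε * y ≤ (φ - p ^ 2 * r * ε) * d := by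
  have hb1 : 0 < b - 1 := by linarith
  have hBpos : 0 < B := by linarith
  have h1 : 2 * p ^ 2 * (1 + r) ≤ φ * (1 - 1 / B) := by
    have e : φ * (1 - 1 / B) = 2 * p ^ 2 * (((B - 1) / (b - 1)) * (1 + r * b) * G) := by
      rw [hφ]; field_simp
    rw [e]
    have a1 : 1 ≤ (B - 1) / (b - 1) := by rw [le_div_iff₀ hb1]; linarith
    have a2 : 1 + r ≤ 1 + r * b := by nlinarith
    have a3 : 1 + r ≤ ((B - 1) / (b - 1)) * (1 + r * b) * G := by
      calc 1 + r = 1 * (1 + r) * 1 := by ring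
        _ ≤ _ := by gcongr
    gcongr
  have h2 : φ * (1 / B) ≥ 0 := by rw [hφ]; positivity
  have hp2 : 0 < p ^ 2 := by positivity
  have h3 : 0 ≤ φ - p ^ 2 * r * ε := by
    have : p ^ 2 * r * ε ≤ p ^ 2 * 1 * 1 := by gcongr
    nlinarith
  have h4 : φ * (1 + ε / B) + 2 * p ^ 2 * ε ≤ (φ - p ^ 2 * r * ε) * (1 + ε) := by
    have e1 : φ * (1 + ε / B) = φ + ε * (φ * (1 / B)) := by field_simp
    have a1 : ε * (2 * p ^ 2 * (1 + r)) ≤ ε * (φ * (1 - 1 / B)) := by gcongr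
    have a2 : p ^ 2 * r * ε * ε ≤ p ^ 2 * r * ε * 1 := by gcongr
    rw [e1]; nlinarith
  calc φ * (1 + ε / B) * y + 2 * p ^ 2 * ε * y = (φ * (1 + ε / B) + 2 * p ^ 2 * ε) * y := by ring
    _ ≤ ((φ - p ^ 2 * r * ε) * (1 + ε)) * y := by gcongr
    _ = (φ - p ^ 2 * r * ε) * ((1 + ε) * y) := by ring
    _ ≤ _ := by gcongr

theorem numB (p r b B G ε y d φ K δ u : ℝ) (hp : 0 < p) (hp1 : p ≤ 1) (hr : 0 < r) (hb : 1 < b)
    (hB : b ≤ B) (hG : 1 ≤ (1 - r ^ 2) * G) (hε : 0 < ε) (hε1 : ε ≤ 1) (hy : 0 < y) (hd : y ≤ d)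
    (hr1 : r ≤ 1) (hφ : φ = 2 * p ^ 2 * B * (1 + r * b) * G / (b - 1)) (hK : φ ≤ K)
    (hδ : δ ≤ B - 1) (hεK : ε * (K + 3) ≤ 2 * p ^ 2 * r * δ)
    (hu : u = 2 * (B + ε) * y / (b - 1)) :
    p ^ 2 * (1 + r) * u + 2 * p ^ 2 * r * (1 + ε) * y + 2 * r ^ 2 * p ^ 2 * ε * y +
      r ^ 2 * (φ * (1 + ε / B) * y) ≤ (φ - p ^ 2 * r * ε) * d := by
  have hb1 : 0 < b - 1 := by linarith
  have hBpos : 0 < B := by linarith
  have hp2 : 0 < p ^ 2 := by positivity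
  have hG0 : 1 ≤ G := by
    by_contra hcon
    have : G < 1 := not_le.1 hcon
    have h1 : 0 ≤ 1 - r ^ 2 := by nlinarith
    have h2 : (1 - r ^ 2) * G ≤ (1 - r ^ 2) * 1 := by gcongr
    nlinarith
  have hφ2 : 2 * p ^ 2 ≤ φ := by
    have e : φ = 2 * p ^ 2 * ((B / (b - 1)) * (1 + r * b) * G) := by
      rw [hφ]; field_simp
    have a1 : 1 ≤ B / (b - 1) := by rw [le_div_iff₀ hb1]; linarith
    have a2 : 1 ≤ 1 + r * b := by nlinarith
    have a3 : 1 ≤ (B / (b - 1)) * (1 + r * b) * G := by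
      calc (1 : ℝ) = 1 * 1 * 1 := by ring
        _ ≤ _ := by gcongr
    rw [e]; nlinarith
  have h3 : 0 ≤ φ - p ^ 2 * r * ε := by
    have : p ^ 2 * r * ε ≤ p ^ 2 * 1 * 1 := by gcongr
    nlinarith
  have hupos : 0 ≤ u := by rw [hu]; positivity
  have eΦ : φ * (1 + ε / B) * y = p ^ 2 * u * (1 + r * b) * G := by
    rw [hφ, hu]; field_simp
  have a1 : p ^ 2 * u * (1 + r * b) ≤ (1 - r ^ 2) * (φ * (1 + ε / B) * y) := by
    rw [eΦ]
    calc p ^ 2 * u * (1 + r * b) = p ^ 2 * u * (1 + r * b) * 1 := by ring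
      _ ≤ p ^ 2 * u * (1 + r * b) * ((1 - r ^ 2) * G) := by gcongr
      _ = _ := by ring
  have a2 : u * (b - 1) = 2 * (B + ε) * y := by rw [hu]; field_simp
  have a3 : φ * (1 + ε / B) * y ≤ φ * y + K * ε * y := by
    have e1 : φ * (1 + ε / B) * y = φ * y + (φ / B) * ε * y := by field_simp
    have : φ / B ≤ K := by
      refine le_trans ?_ hK
      rw [div_le_iff₀ hBpos]; nlinarith
    rw [e1]; gcongr
  have a4 : p ^ 2 * r * ε + 2 * p ^ 2 * r ^ 2 * ε ≤ 3 * ε := by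
    have b1 : p ^ 2 ≤ 1 := by nlinarith
    have b2 : r ^ 2 ≤ 1 := by nlinarith
    have b3 : p ^ 2 * r * ε ≤ 1 * 1 * ε := by gcongr
    have b4 : 2 * p ^ 2 * r ^ 2 * ε ≤ 2 * 1 * 1 * ε := by gcongr
    linarith
  have a5 : 2 * p ^ 2 * r * δ ≤ 2 * p ^ 2 * r * (B - 1) := by gcongr
  have a6 : (p ^ 2 * r * ε + 2 * p ^ 2 * r ^ 2 * ε + K * ε) * y ≤
      (2 * p ^ 2 * r * (B - 1)) * y := by
    gcongr; linarith
  have a7 : (φ - p ^ 2 * r * ε) * y ≤ (φ - p ^ 2 * r * ε) * d := by gcongr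
  have a8 : p ^ 2 * r * (u * (b - 1)) = p ^ 2 * r * (2 * (B + ε) * y) := by rw [a2]
  nlinarith

theorem cover (m : ℕ) (hm : 1 ≤ m) (b : ℝ) (hb : 1 < b) (j : ℕ) (hj : j < m) (d : ℝ)
    (hd : 1 ≤ d) : ∃ n, j = n % m ∧ b ^ n / b ^ m < d ∧ d ≤ b ^ n := by
  classical
  have hB : 1 < b ^ m := one_lt_pow₀ hb (by omega)
  have hex : ∃ i, d ≤ b ^ (j + i * m) := by
    obtain ⟨i, hi⟩ := pow_unbounded_of_one_lt d hb
    refine ⟨i, hi.le.trans (pow_le_pow_right₀ hb.le ?_)⟩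
    nlinarith
  refine ⟨j + Nat.find hex * m, by rw [Nat.add_mul_mod_self_right, Nat.mod_eq_of_lt hj], ?_,
    Nat.find_spec hex⟩
  rw [div_lt_iff₀ (by positivity)]
  rcases h : Nat.find hex with _ | i
  · have : b ^ j < b ^ m := pow_lt_pow_right₀ hb hj
    simp only [Nat.zero_mul, Nat.add_zero]
    nlinarith
  · have := Nat.find_min hex (m := i) (by omega)
    rw [Nat.succ_mul, ← Nat.add_assoc, pow_add]
    have h2 : b ^ (j + i * m) < d := not_le.1 this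
    gcongr

set_option maxHeartbeats 1000000 in
theorem improved {m : ℕ} (hm : 1 ≤ m) (p : ℝ) (hp0 : 0 < p) (hp1 : p < 1) (K : ℝ) :
    ∃ g : ℝ, 0 < g ∧ ∀ b : ℝ, 1 < b → (1 - p) ^ 2 * b ^ m < 1 → phi m p b ≤ K →
      ∃ T : ℝ → EuclideanSpace ℝ (Fin m), IsTrajectory T ∧ g ≤ phi m p b ∧
        ratio p T ≤ ENNReal.ofReal (phi m p b + p ^ 2 / (2 - p) - g) := by
  set r := 1 - p with hr
  have hr0 : 0 < r := by linarith
  have hr1 : r < 1 := by linarith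
  set K' := max K 1 with hK'
  have hK'pos : 0 < K' := lt_of_lt_of_le one_pos (le_max_right _ _)
  set δ := 2 * p ^ 2 / K' with hδ
  have hδpos : 0 < δ := by positivity
  set ε := min (min 1 (δ / 2)) (2 * p ^ 2 * r * δ / (K' + 3)) with hε
  have hεpos : 0 < ε := by positivity
  have hε1 : ε ≤ 1 := (min_le_left _ _).trans (min_le_left _ _)
  have hε2 : ε ≤ δ / 2 := (min_le_left _ _).trans (min_le_right _ _)
  have hε3 : ε * (K' + 3) ≤ 2 * p ^ 2 * r * δ := by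
    rw [← le_div_iff₀ (by positivity)]; exact min_le_right _ _
  refine ⟨p ^ 2 * r * ε, by positivity, ?_⟩
  intro b hb hq hK
  set B := b ^ m with hB
  have hbB : b ≤ B := by
    calc b = b ^ 1 := (pow_one b).symm
      _ ≤ b ^ m := pow_le_pow_right₀ hb.le hm
  have hb1 : 0 < b - 1 := by linarith
  have hBpos : 0 < B := by linarith
  set G := (1 - r ^ 2 * B)⁻¹ with hG
  have hq' : 0 < 1 - r ^ 2 * B := by linarith
  have hG1 : 1 ≤ (1 - r ^ 2) * G := by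
    rw [hG, ← div_eq_mul_inv, le_div_iff₀ hq']
    have : r ^ 2 * 1 ≤ r ^ 2 * B := by gcongr; linarith
    linarith
  have hG0 : 1 ≤ G := by
    rw [hG, ← one_div, le_div_iff₀ hq']
    have : 0 ≤ r ^ 2 * B := by positivity
    linarith
  set φ := phi m p b with hφdef
  have hφ : φ = 2 * p ^ 2 * B * (1 + r * b) * G / (b - 1) := by
    rw [hφdef]; unfold phi; rw [← hr, ← hB, hG]; field_simp
  have hφK : φ ≤ K' := hK.trans (le_max_left _ _)
  have hδB : δ ≤ B - 1 := by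
    have a1 : 2 * p ^ 2 ≤ φ * (b - 1) := by
      have e : φ * (b - 1) = 2 * p ^ 2 * (B * (1 + r * b) * G) := by rw [hφ]; field_simp
      have a2 : 1 ≤ 1 + r * b := by nlinarith
      have a3 : 1 ≤ B * (1 + r * b) * G := by
        calc (1 : ℝ) = 1 * 1 * 1 := by ring
          _ ≤ _ := by gcongr; linarith
      rw [e]; nlinarith
    rw [hδ, div_le_iff₀ hK'pos]
    have : φ * (b - 1) ≤ K' * (B - 1) := by gcongr
    linarith
  let x : ℕ → ℝ := fun n => b ^ n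
  let y : ℕ → ℝ := fun n => b ^ n / B
  let τ : ℕ → ℝ := fun n => 2 * (1 + ε / B) * (b ^ n - 1) / (b - 1)
  have hy : ∀ n, 0 < y n := fun n => by simp only [y]; positivity
  have hxy : ∀ n, (1 + ε) * y n < x n := by
    intro n
    simp only [x, y]
    rw [← mul_div_assoc, div_lt_iff₀ hBpos, mul_comm]
    have : 0 < b ^ n := by positivity
    gcongr; linarith
  have h0 : τ 0 = 0 := by simp [τ]
  have hτ : ∀ n, τ (n + 1) = τ n + 2 * x n + 2 * ε * y n := by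
    intro n; simp only [τ, x, y]; field_simp; ring
  have hyx : ∀ n, y (n + m) = x n := by
    intro n; simp only [x, y]; rw [pow_add, ← hB]; field_simp
  have ht : Tendsto τ atTop atTop := by
    apply Tendsto.atTop_div_const hb1
    apply Tendsto.const_mul_atTop (by positivity)
    exact tendsto_atTop_add_const_right _ (-1) (tendsto_pow_atTop_atTop_of_one_lt hb)
  obtain ⟨T, hT, L⟩ := exists_legs hm τ x y ε hεpos hy (fun n => (hxy n).le) h0 hτ ht
  refine ⟨T, hT, ?_, ?_⟩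
  · have e : φ = 2 * p ^ 2 * ((B / (b - 1)) * (1 + r * b) * G) := by
      rw [hφ]; field_simp
    have a1 : 1 ≤ B / (b - 1) := by rw [le_div_iff₀ hb1]; linarith
    have a2 : 1 ≤ 1 + r * b := by nlinarith
    have a3 : 1 ≤ (B / (b - 1)) * (1 + r * b) * G := by
      calc (1 : ℝ) = 1 * 1 * 1 := by ring
        _ ≤ _ := by gcongr
    have a4 : p ^ 2 * r * ε ≤ p ^ 2 * 1 * 1 := by gcongr
    have a5 : 0 < p ^ 2 := by positivity
    rw [e]; nlinarith
  unfold ratio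
  refine iSup_le (fun j => iSup₂_le (fun d hd => ?_))
  obtain ⟨n, hn, hd1, hd2⟩ := cover m hm b hb j j.isLt d hd
  set u := 2 * (B + ε) * y n / (b - 1) with hu
  have hupos : 0 ≤ u := by have := hy n; positivity
  have hτle : ∀ k, τ k ≤ 2 * (1 + ε / B) * b ^ k / (b - 1) := by
    intro k; simp only [τ]; gcongr; linarith
  have hu1 : ∀ i, τ (n + i * m) ≤ u * B ^ i := by
    intro i
    refine (hτle _).trans (le_of_eq ?_)
    rw [hu, pow_add, mul_comm i m, pow_mul, ← hB]; simp only [y]; field_simp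
  have hu2 : ∀ i, τ (n + i * m + 1) ≤ u * b * B ^ i := by
    intro i
    refine (hτle _).trans (le_of_eq ?_)
    rw [hu, pow_succ, pow_add, mul_comm i m, pow_mul, ← hB]; simp only [y]; field_simp
  obtain ⟨hA, hBd⟩ := exp_upper p T τ x y ε hm hp0 hp1 hεpos hy hxy h0 hτ hyx L n j hn d hd1 hd2
    u b B hupos (by linarith) hBpos.le hq hu1 hu2
  rw [← hr, ← hG] at hA hBd
  have hdpos : 0 < d := by linarith
  have fin : ∀ V : ℝ, expTime p T j d ≤ ENNReal.ofReal V →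
      p * V ≤ (φ + p ^ 2 / (2 - p) - p ^ 2 * r * ε) * d →
      ENNReal.ofReal p * expTime p T j d / ENNReal.ofReal d ≤
        ENNReal.ofReal (φ + p ^ 2 / (2 - p) - p ^ 2 * r * ε) := by
    intro V h1 h2
    rw [ENNReal.div_le_iff (by simp; linarith) ENNReal.ofReal_ne_top,
      ← ENNReal.ofReal_mul' hdpos.le]
    refine (mul_le_mul_right h1 _).trans ?_
    rw [← ENNReal.ofReal_mul hp0.le]
    exact ENNReal.ofReal_le_ofReal h2
  have eΦ : φ * (1 + ε / B) * y n = p ^ 2 * u * (1 + r * b) * G := by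
    rw [hφ, hu]; field_simp
  rcases lt_or_ge ((1 + ε) * y n) d with hc | hc
  · apply fin _ (hA hc)
    have := numA p r b B G ε (y n) d φ hp0 hr0 hb hbB hG0 hεpos hε1 (hy n) hc.le hr1.le hφ
    have e : p * (p * u * (1 + r * b) * G + p / (2 - p) * d + 2 * p * ε * y n) =
        p ^ 2 * u * (1 + r * b) * G + 2 * p ^ 2 * ε * y n + p ^ 2 / (2 - p) * d := by ring
    rw [e, ← eΦ]
    linarith
  · apply fin _ (hBd hc)
    have := numB p r b B G ε (y n) d φ K' δ u hp0 hp1.le hr0 hb hbB hG1 hεpos hε1 (hy n) hd1.le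
      hr1.le hφ hφK hδB hε3 hu
    have e : p ^ 2 * (1 - r) * d + r ^ 2 * (p ^ 2 / (2 - p) * d) = p ^ 2 / (2 - p) * d := by
      have h2 : (2 - p) ≠ 0 := by linarith
      rw [hr]; field_simp; ring
    have e2 : p * (p * (u + d) + p * r * (u + 2 * (1 + ε) * y n - d) +
        r ^ 2 * (p * u * (1 + r * b) * G + p / (2 - p) * d + 2 * p * ε * y n)) =
        (p ^ 2 * (1 + r) * u + 2 * p ^ 2 * r * (1 + ε) * y n + 2 * r ^ 2 * p ^ 2 * ε * y n +
          r ^ 2 * (p ^ 2 * u * (1 + r * b) * G)) +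
          (p ^ 2 * (1 - r) * d + r ^ 2 * (p ^ 2 / (2 - p) * d)) := by ring
    rw [e2, e, ← eΦ]
    linarith

theorem exists_base (m : ℕ) (p : ℝ) (hp0 : 0 < p) (hp1 : p < 1) :
    ∃ b : ℝ, 1 < b ∧ (1 - p) ^ 2 * b ^ m < 1 := by
  have hc : Continuous (fun b : ℝ => (1 - p) ^ 2 * b ^ m) := by fun_prop
  have h1 : (1 - p) ^ 2 * (1 : ℝ) ^ m < 1 := by rw [one_pow]; nlinarith
  have hev : ∀ᶠ b in nhds (1 : ℝ), (1 - p) ^ 2 * b ^ m < 1 :=
    (hc.tendsto 1).eventually (gt_mem_nhds h1)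
  have hev2 : ∀ᶠ b in nhdsWithin (1 : ℝ) (Ioi 1), 1 < b ∧ (1 - p) ^ 2 * b ^ m < 1 :=
    (eventually_mem_nhdsWithin).and (hev.filter_mono nhdsWithin_le_nhds)
  exact hev2.exists

theorem main {m : ℕ} (hm : 1 ≤ m) (p : ℝ) (hp0 : 0 < p) (hp1 : p < 1) :
    ∃ T : ℝ → EuclideanSpace ℝ (Fin m), IsTrajectory T ∧
      ratio p T < ⨅ (T' : ℝ → EuclideanSpace ℝ (Fin m)) (_ : IsCyclicMonotone T'), ratio p T' := by
  set I := ⨅ (T' : ℝ → EuclideanSpace ℝ (Fin m)) (_ : IsCyclicMonotone T'), ratio p T' with hI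
  by_cases htop : I = ⊤
  · obtain ⟨b, hb1, hb2⟩ := exists_base m p hp0 hp1
    obtain ⟨g, -, hg⟩ := improved hm p hp0 hp1 (phi m p b)
    obtain ⟨T, hT, -, h⟩ := hg b hb1 hb2 le_rfl
    exact ⟨T, hT, by rw [htop]; exact lt_of_le_of_lt h ENNReal.ofReal_lt_top⟩
  · obtain ⟨g, hgpos, hg⟩ := improved hm p hp0 hp1 (I.toReal + 1)
    set g' := min (g / 2) 1 with hg'
    have hg'pos : 0 < g' := by positivity
    have hlt : I < I + ENNReal.ofReal g' :=
      ENNReal.lt_add_right htop (by simpa using hg'pos)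
    rw [hI, iInf_lt_iff] at hlt
    obtain ⟨T', hT'⟩ := hlt
    rw [iInf_lt_iff] at hT'
    obtain ⟨hcyc, hT'⟩ := hT'
    rw [← hI] at hT'
    have hfin : ratio p T' ≠ ⊤ := ne_top_of_lt hT'
    obtain ⟨b, hb1, hb2, hb3⟩ := ratio_lower hm p hp0 hp1 T' hcyc hfin
    have h1 : (ratio p T').toReal ≤ I.toReal + g' := by
      have := ENNReal.toReal_mono (by finiteness) hT'.le
      rwa [ENNReal.toReal_add htop ENNReal.ofReal_ne_top, ENNReal.toReal_ofReal hg'pos.le] at this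
    have hc0 : 0 ≤ p ^ 2 / (2 - p) := by
      have : 0 < 2 - p := by linarith
      positivity
    have hg1 : g' ≤ 1 := min_le_right _ _
    have hg2 : g' ≤ g / 2 := min_le_left _ _
    obtain ⟨T, hT, hgφ, h⟩ := hg b hb1 hb2 (by linarith)
    refine ⟨T, hT, lt_of_le_of_lt h ?_⟩
    rw [ENNReal.ofReal_lt_iff_lt_toReal (by linarith) htop]
    linarith

end Pool.Agent.Lib.MP_d94893_lc
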